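import Pool.Agent.W787.KG.Defs

/-! Project KG: the Duhamel estimate. -/

set_option autoImplicit false

open MeasureTheory Set Real

noncomputable section

namespace Pool.Agent.W45.KG

open Pool.Agent.W787.KG

/-- `1 - exp (-x^2) ≤ x`. -/
theorem one_sub_exp_le {x : ℝ} (hx : 0 ≤ x) : 1 - Real.exp (-x ^ 2) ≤ x := by
  rcases le_total x 1 with h | h
  · have h1 := Real.add_one_le_exp (-x ^ 2)
    nlinarith
  · have h1 := Real.exp_pos (-x ^ 2)
    linarith

/-- the second part is bounded -/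
theorem exp_bound {x : ℝ} (hx : 0 ≤ x) :
    x * Real.exp (-x ^ 2 / 2) * (1 + x) ^ 12 ≤ Real.exp (169 / 2) := by
  have h1 : (1 + x) ^ 13 ≤ Real.exp (13 * x) := by
    have h2 := Real.add_one_le_exp x
    calc (1 + x) ^ 13 ≤ (Real.exp x) ^ 13 := by
          apply pow_le_pow_left₀ (by linarith)
          linarith
      _ = Real.exp (13 * x) := by
          rw [← Real.exp_nat_mul]
          norm_num
  have h3 : x * (1 + x) ^ 12 ≤ (1 + x) ^ 13 := by
    have h4 : 0 ≤ (1 + x) ^ 12 := by positivity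
    have : (1 + x) ^ 13 = (1 + x) * (1 + x) ^ 12 := by ring
    rw [this]
    nlinarith
  have h5 : Real.exp (13 * x) ≤ Real.exp (x ^ 2 / 2 + 169 / 2) := by
    apply Real.exp_le_exp.mpr
    nlinarith [sq_nonneg (x - 13)]
  calc x * Real.exp (-x ^ 2 / 2) * (1 + x) ^ 12 = Real.exp (-x ^ 2 / 2) * (x * (1 + x) ^ 12) := by
        ring
    _ ≤ Real.exp (-x ^ 2 / 2) * Real.exp (x ^ 2 / 2 + 169 / 2) := by
        apply mul_le_mul_of_nonneg_left _ (Real.exp_pos _).le
        exact (h3.trans h1).trans h5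
    _ = Real.exp (169 / 2) := by
        rw [← Real.exp_add]
        congr 1
        ring

/-- first integral -/
theorem int1 {t r : ℝ} (ht : 0 ≤ t) (hr : 0 ≤ r) :
    ∫ s in (0 : ℝ)..t, r * Real.exp (-(t - s) * r ^ 2) ≤ Real.sqrt t := by
  rcases hr.eq_or_lt with h | h
  · subst h
    simp
  · have hd : ∀ s ∈ Set.uIcc 0 t, HasDerivAt (fun s => Real.exp (-(t - s) * r ^ 2) / r)
        (r * Real.exp (-(t - s) * r ^ 2)) s := by
      intro s _
      have h1 : HasDerivAt (fun s => -(t - s) * r ^ 2) (r ^ 2) s := by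
        have := (((hasDerivAt_id s).const_sub t).neg).mul_const (r ^ 2)
        simpa using this
      have h2 := (h1.exp).div_const r
      have h6 : r * Real.exp (-(t - s) * r ^ 2) = Real.exp (-(t - s) * r ^ 2) * r ^ 2 / r := by
        field_simp
      rw [h6]
      exact h2
    have hc : Continuous (fun s => r * Real.exp (-(t - s) * r ^ 2)) := by fun_prop
    rw [intervalIntegral.integral_eq_sub_of_hasDerivAt hd (hc.intervalIntegrable _ _)]
    have h3 := one_sub_exp_le (x := Real.sqrt t * r) (by positivity)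
    have h4 : -(Real.sqrt t * r) ^ 2 = -(t - 0) * r ^ 2 := by
      rw [mul_pow, Real.sq_sqrt ht]
      ring
    rw [h4] at h3
    have h5 : Real.exp (-(t - t) * r ^ 2) = 1 := by simp
    rw [h5, ← sub_div, div_le_iff₀ h]
    exact h3

/-- second integral -/
theorem int2 {t : ℝ} (ht : 0 ≤ t) :
    IntervalIntegrable (fun s : ℝ => 1 / Real.sqrt (s + 1)) volume 0 t ∧
    ∫ s in (0 : ℝ)..t, 1 / Real.sqrt (s + 1) ≤ 2 * Real.sqrt (t + 1) := by
  have hpos : ∀ s ∈ Set.uIcc 0 t, 0 < Real.sqrt (s + 1) := by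
    intro s hs
    rw [Set.uIcc_of_le ht] at hs
    exact Real.sqrt_pos.mpr (by linarith [hs.1])
  have hd : ∀ s ∈ Set.uIcc 0 t, HasDerivAt (fun s => 2 * Real.sqrt (s + 1))
      (1 / Real.sqrt (s + 1)) s := by
    intro s hs
    have hs0 : s + 1 ≠ 0 := by
      have := Real.sqrt_pos.mp (hpos s hs)
      exact this.ne'
    have h1 : HasDerivAt (fun s : ℝ => s + 1) 1 s := (hasDerivAt_id s).add_const 1
    have h2 := (h1.sqrt hs0).const_mul 2
    have hne := (hpos s hs).ne'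
    have h6 : 1 / Real.sqrt (s + 1) = 2 * (1 / (2 * Real.sqrt (s + 1))) := by
      field_simp
    rw [h6]
    exact h2
  have hc : ContinuousOn (fun s : ℝ => 1 / Real.sqrt (s + 1)) (Set.uIcc 0 t) := by
    apply ContinuousOn.div continuousOn_const (by fun_prop)
    intro s hs
    exact (hpos s hs).ne'
  refine ⟨hc.intervalIntegrable, ?_⟩
  rw [intervalIntegral.integral_eq_sub_of_hasDerivAt hd hc.intervalIntegrable]
  simp

/-- the weight with scalar parameters -/
def w6 (a b c σ : ℝ) : ℝ := 1 / ((1 + σ * a) * (1 + σ * b) * c) ^ 6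

theorem w6_pos {a b c σ : ℝ} (ha : 0 ≤ a) (hb : 0 ≤ b) (hc : 1 ≤ c) (hσ : 0 ≤ σ) :
    0 < w6 a b c σ := by
  unfold w6
  have h1 : 0 < 1 + σ * a := by positivity
  have h2 : 0 < 1 + σ * b := by positivity
  have h3 : 0 < c := by linarith
  positivity

theorem case_a {r a b c t s : ℝ} (hr : 0 ≤ r) (ha0 : 0 ≤ a) (hb0 : 0 ≤ b) (hc1 : 1 ≤ c)
    (hs : 0 ≤ s) (ht : 0 ≤ t) (h : (t + 1) / 2 ≤ s + 1) :
    Real.exp (-(t - s) * r ^ 2) * r / Real.sqrt (s + 1) * w6 a b c (Real.sqrt (s + 1)) ≤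
      128 / Real.sqrt (t + 1) * w6 a b c (Real.sqrt (t + 1)) *
        (r * Real.exp (-(t - s) * r ^ 2)) := by
  have hS : 0 < Real.sqrt (s + 1) := Real.sqrt_pos.mpr (by linarith)
  have hT : 0 < Real.sqrt (t + 1) := Real.sqrt_pos.mpr (by linarith)
  have h1 : Real.sqrt (t + 1) ≤ Real.sqrt 2 * Real.sqrt (s + 1) := by
    rw [← Real.sqrt_mul (by norm_num)]
    exact Real.sqrt_le_sqrt (by linarith)
  generalize Real.sqrt (s + 1) = σ at *
  generalize Real.sqrt (t + 1) = T at *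
  have hE := Real.exp_pos (-(t - s) * r ^ 2)
  generalize Real.exp (-(t - s) * r ^ 2) = e at *
  have hs2 : 1 ≤ Real.sqrt 2 := by
    rw [Real.one_le_sqrt]
    norm_num
  have hs22 : Real.sqrt 2 * Real.sqrt 2 = 2 := Real.mul_self_sqrt (by norm_num)
  have hs2' : Real.sqrt 2 ≤ 2 := by
    rw [Real.sqrt_le_left (by norm_num)]
    norm_num
  generalize Real.sqrt 2 = q at *
  have h2 : ∀ x : ℝ, 0 ≤ x → 1 + T * x ≤ q * (1 + σ * x) := by
    intro x hx
    have h3 := mul_le_mul_of_nonneg_right h1 hx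
    have h4 : q * (1 + σ * x) = q + q * σ * x := by ring
    rw [h4]
    linarith
  have hTa : 0 < 1 + T * a := by positivity
  have hTb : 0 < 1 + T * b := by positivity
  have hSa : 0 < 1 + σ * a := by positivity
  have hSb : 0 < 1 + σ * b := by positivity
  have hc : 0 < c := by linarith
  have hq : 0 < q := by linarith
  have h3 : (1 + T * a) * (1 + T * b) * c ≤ 2 * ((1 + σ * a) * (1 + σ * b) * c) := by
    have h4 : (1 + T * a) * (1 + T * b) ≤ (q * (1 + σ * a)) * (q * (1 + σ * b)) :=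
      mul_le_mul (h2 a ha0) (h2 b hb0) hTb.le (mul_pos hq hSa).le
    calc (1 + T * a) * (1 + T * b) * c ≤ (q * (1 + σ * a)) * (q * (1 + σ * b)) * c :=
          mul_le_mul_of_nonneg_right h4 hc.le
      _ = (q * q) * ((1 + σ * a) * (1 + σ * b) * c) := by ring
      _ = _ := by rw [hs22]
  have hp1' : 0 < (1 + T * a) * (1 + T * b) * c := mul_pos (mul_pos hTa hTb) hc
  have hp2' : 0 < (1 + σ * a) * (1 + σ * b) * c := mul_pos (mul_pos hSa hSb) hc
  have h5 : w6 a b c σ ≤ 64 * w6 a b c T := by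
    unfold w6
    generalize (1 + T * a) * (1 + T * b) * c = X at *
    generalize (1 + σ * a) * (1 + σ * b) * c = Y at *
    have h6 : X ^ 6 ≤ (2 * Y) ^ 6 := pow_le_pow_left₀ hp1'.le h3 6
    rw [← mul_div_assoc, div_le_div_iff₀ (pow_pos hp2' 6) (pow_pos hp1' 6)]
    rw [mul_pow] at h6
    linarith
  have h7 : 1 / σ ≤ 2 / T := by
    rw [div_le_div_iff₀ hS hT]
    have h10 := mul_le_mul_of_nonneg_right hs2' hS.le
    linarith
  have hw := w6_pos ha0 hb0 hc1 hS.le
  calc e * r / σ * w6 a b c σ = (r * e) * ((1 / σ) * w6 a b c σ) := by ring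
    _ ≤ (r * e) * ((2 / T) * (64 * w6 a b c T)) := by
        apply mul_le_mul_of_nonneg_left _ (mul_nonneg hr hE.le)
        exact mul_le_mul h7 h5 hw.le (div_pos two_pos hT).le
    _ = _ := by ring

theorem case_b {r a b c t s : ℝ} (hr : 0 ≤ r) (ha0 : 0 ≤ a) (hb0 : 0 ≤ b) (hc1 : 1 ≤ c)
    (hs : 0 ≤ s) (_ht : 0 ≤ t) (h : s + 1 ≤ (t + 1) / 2) :
    Real.exp (-(t - s) * r ^ 2) * r / Real.sqrt (s + 1) * w6 a b c (Real.sqrt (s + 1)) ≤
      Real.exp (-(Real.sqrt (t + 1) * r) ^ 2 / 2) * r / c ^ 6 * (1 / Real.sqrt (s + 1)) := by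
  have hS : 0 < Real.sqrt (s + 1) := Real.sqrt_pos.mpr (by linarith)
  have hT2 : Real.sqrt (t + 1) ^ 2 = t + 1 := Real.sq_sqrt (by linarith)
  have h1 : Real.exp (-(t - s) * r ^ 2) ≤ Real.exp (-(Real.sqrt (t + 1) * r) ^ 2 / 2) := by
    apply Real.exp_le_exp.mpr
    rw [mul_pow, hT2]
    have h3 : (t + 1) / 2 ≤ t - s := by linarith
    have h4 := mul_le_mul_of_nonneg_right h3 (sq_nonneg r)
    linarith
  have hE := Real.exp_pos (-(t - s) * r ^ 2)
  have hE2 := Real.exp_pos (-(Real.sqrt (t + 1) * r) ^ 2 / 2)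
  generalize Real.exp (-(t - s) * r ^ 2) = e at *
  generalize Real.exp (-(Real.sqrt (t + 1) * r) ^ 2 / 2) = e' at *
  generalize Real.sqrt (s + 1) = σ at *
  have hc : 0 < c := by linarith
  have h4 : 0 ≤ σ * a := mul_nonneg hS.le ha0
  have h5 : 0 ≤ σ * b := mul_nonneg hS.le hb0
  have h2 : w6 a b c σ ≤ 1 / c ^ 6 := by
    unfold w6
    apply one_div_le_one_div_of_le (pow_pos hc 6)
    apply pow_le_pow_left₀ hc.le
    have h3 : 1 ≤ (1 + σ * a) * (1 + σ * b) :=
      one_le_mul_of_one_le_of_one_le (by linarith) (by linarith)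
    exact le_mul_of_one_le_left hc.le h3
  have hw := w6_pos ha0 hb0 hc1 hS.le
  calc e * r / σ * w6 a b c σ = (r * (1 / σ)) * (e * w6 a b c σ) := by ring
    _ ≤ (r * (1 / σ)) * (e' * (1 / c ^ 6)) := by
        apply mul_le_mul_of_nonneg_left _ (mul_nonneg hr (one_div_pos.mpr hS).le)
        exact mul_le_mul h1 h2 hw.le hE2.le
    _ = _ := by ring

theorem final_b {r a b c T : ℝ} (hr : 0 ≤ r) (ha0 : 0 ≤ a) (hb0 : 0 ≤ b) (hc1 : 1 ≤ c)
    (ha : a ≤ r) (hb : b ≤ r) (hT : 0 < T) :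
    Real.exp (-(T * r) ^ 2 / 2) * r / c ^ 6 * (2 * T) ≤
      2 * Real.exp (169 / 2) * w6 a b c T := by
  have h2 := exp_bound (x := T * r) (mul_nonneg hT.le hr)
  have hE2 := Real.exp_pos (-(T * r) ^ 2 / 2)
  generalize Real.exp (-(T * r) ^ 2 / 2) = e' at *
  generalize Real.exp (169 / 2) = M at *
  have hTa : 0 < 1 + T * a := by positivity
  have hTb : 0 < 1 + T * b := by positivity
  have hTr : 0 < 1 + T * r := by positivity
  have hc : 0 < c := by linarith
  have h3 : ((1 + T * a) * (1 + T * b)) ^ 6 ≤ (1 + T * r) ^ 12 := by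
    have h4 : (1 + T * a) * (1 + T * b) ≤ (1 + T * r) * (1 + T * r) := by
      apply mul_le_mul _ _ hTb.le hTr.le
      · have := mul_le_mul_of_nonneg_left ha hT.le
        linarith
      · have := mul_le_mul_of_nonneg_left hb hT.le
        linarith
    calc ((1 + T * a) * (1 + T * b)) ^ 6 ≤ ((1 + T * r) * (1 + T * r)) ^ 6 :=
          pow_le_pow_left₀ (mul_pos hTa hTb).le h4 6
      _ = (1 + T * r) ^ 12 := by ring
  unfold w6
  have hp : 0 < (1 + T * a) * (1 + T * b) := mul_pos hTa hTb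
  rw [mul_pow ((1 + T * a) * (1 + T * b)) c 6, ← mul_div_assoc, mul_one]
  generalize (1 + T * a) * (1 + T * b) = X at *
  rw [le_div_iff₀ (mul_pos (pow_pos hp 6) (pow_pos hc 6))]
  calc e' * r / c ^ 6 * (2 * T) * (X ^ 6 * c ^ 6)
      = 2 * (T * r * e' * X ^ 6) := by
        field_simp
    _ ≤ 2 * (T * r * e' * (1 + T * r) ^ 12) := by
        apply mul_le_mul_of_nonneg_left _ (by norm_num)
        exact mul_le_mul_of_nonneg_left h3 (mul_nonneg (mul_nonneg hT.le hr) hE2.le)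
    _ ≤ 2 * M := by linarith

theorem main_scalar {r a b c t : ℝ} (hr : 0 ≤ r) (ha0 : 0 ≤ a) (hb0 : 0 ≤ b) (hc1 : 1 ≤ c)
    (ha : a ≤ r) (hb : b ≤ r) (ht : 0 ≤ t) :
    ∫ s in (0 : ℝ)..t, Real.exp (-(t - s) * r ^ 2) * r / Real.sqrt (s + 1)
      * w6 a b c (Real.sqrt (s + 1)) ≤
      (128 + 2 * Real.exp (169 / 2)) * w6 a b c (Real.sqrt (t + 1)) := by
  have hT : 0 < Real.sqrt (t + 1) := Real.sqrt_pos.mpr (by linarith)
  have hc : 0 < c := by linarith
  have hWT := w6_pos ha0 hb0 hc1 hT.le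
  have key : ∀ s ∈ Set.Icc 0 t, Real.exp (-(t - s) * r ^ 2) * r / Real.sqrt (s + 1)
      * w6 a b c (Real.sqrt (s + 1)) ≤
      128 / Real.sqrt (t + 1) * w6 a b c (Real.sqrt (t + 1)) *
        (r * Real.exp (-(t - s) * r ^ 2)) +
      Real.exp (-(Real.sqrt (t + 1) * r) ^ 2 / 2) * r / c ^ 6 * (1 / Real.sqrt (s + 1)) := by
    intro s hs
    rcases le_total ((t + 1) / 2) (s + 1) with h | h
    · have h1 := case_a hr ha0 hb0 hc1 hs.1 ht h
      have h2 : 0 ≤ Real.exp (-(Real.sqrt (t + 1) * r) ^ 2 / 2) * r / c ^ 6 *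
          (1 / Real.sqrt (s + 1)) := by positivity
      linarith
    · have h1 := case_b hr ha0 hb0 hc1 hs.1 ht h
      have h2 : 0 ≤ 128 / Real.sqrt (t + 1) * w6 a b c (Real.sqrt (t + 1)) *
        (r * Real.exp (-(t - s) * r ^ 2)) := by positivity
      linarith
  have hcG : ContinuousOn (fun s : ℝ => Real.exp (-(t - s) * r ^ 2) * r / Real.sqrt (s + 1)
      * w6 a b c (Real.sqrt (s + 1))) (Set.uIcc 0 t) := by
    have hnz : ∀ s ∈ Set.uIcc 0 t, Real.sqrt (s + 1) ≠ 0 := by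
      intro s hs
      rw [Set.uIcc_of_le ht] at hs
      exact (Real.sqrt_pos.mpr (by linarith [hs.1])).ne'
    unfold w6
    apply ContinuousOn.mul
    · exact ContinuousOn.div (by fun_prop) (by fun_prop) hnz
    · apply ContinuousOn.div continuousOn_const (by fun_prop)
      intro s _
      have h0 := Real.sqrt_nonneg (s + 1)
      have h1 : 0 < 1 + Real.sqrt (s + 1) * a := by positivity
      have h2 : 0 < 1 + Real.sqrt (s + 1) * b := by positivity
      exact (pow_pos (mul_pos (mul_pos h1 h2) hc) 6).ne'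
  have hi1 : IntervalIntegrable (fun s : ℝ => 128 / Real.sqrt (t + 1) *
      w6 a b c (Real.sqrt (t + 1)) * (r * Real.exp (-(t - s) * r ^ 2))) volume 0 t := by
    apply Continuous.intervalIntegrable
    fun_prop
  have hi2 : IntervalIntegrable (fun s : ℝ => Real.exp (-(Real.sqrt (t + 1) * r) ^ 2 / 2) *
      r / c ^ 6 * (1 / Real.sqrt (s + 1))) volume 0 t := (int2 ht).1.const_mul _
  refine (intervalIntegral.integral_mono_on ht hcG.intervalIntegrable (hi1.add hi2) key).trans ?_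
  rw [intervalIntegral.integral_add hi1 hi2]
  refine (le_of_eq (congrArg₂ (· + ·) (intervalIntegral.integral_const_mul _ _)
    (intervalIntegral.integral_const_mul _ _))).trans ?_
  have hA : 128 / Real.sqrt (t + 1) * w6 a b c (Real.sqrt (t + 1)) *
      (∫ s in (0 : ℝ)..t, r * Real.exp (-(t - s) * r ^ 2)) ≤
      128 * w6 a b c (Real.sqrt (t + 1)) := by
    have h1 : ∫ s in (0 : ℝ)..t, r * Real.exp (-(t - s) * r ^ 2) ≤ Real.sqrt (t + 1) :=
      (int1 ht hr).trans (Real.sqrt_le_sqrt (by linarith))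
    refine (mul_le_mul_of_nonneg_left h1 (by positivity)).trans (le_of_eq ?_)
    generalize w6 a b c (Real.sqrt (t + 1)) = W
    field_simp
  have hB : Real.exp (-(Real.sqrt (t + 1) * r) ^ 2 / 2) * r / c ^ 6 *
      (∫ s in (0 : ℝ)..t, 1 / Real.sqrt (s + 1)) ≤
      2 * Real.exp (169 / 2) * w6 a b c (Real.sqrt (t + 1)) :=
    (mul_le_mul_of_nonneg_left (int2 ht).2 (by positivity)).trans
      (final_b hr ha0 hb0 hc1 ha hb hT)
  rw [add_mul]
  exact add_le_add hA hB

theorem du : S_DU := by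
  refine ⟨128 + 2 * Real.exp (169 / 2), by positivity, ?_⟩
  intro L t ξ hL ht
  have ha : |ξ 0| ≤ ‖ξ‖ := by
    have h2 := PiLp.norm_apply_le ξ 0
    simpa using h2
  have hb : |ξ 1| ≤ ‖ξ‖ := by
    have h2 := PiLp.norm_apply_le ξ 1
    simpa using h2
  have hc1 : 1 ≤ 1 + L * |ξ 2| := by
    have : 0 ≤ L * |ξ 2| := by positivity
    linarith
  exact main_scalar (norm_nonneg ξ) (abs_nonneg _) (abs_nonneg _) hc1 ha hb ht

end Pool.Agent.W45.KG
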